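import Pool.Agent.N513.PF.Stab
import Pool.Agent.N513.PF.Main

/-!
# Positive factorizations of the boundary twist over finitely many types of curve systems
-/

set_option autoImplicit false

namespace Pool.Agent.Results.MP_294da1_gt.HigmanBound

open Pool.Agent.N513.PF

/-- The fundamental group of the surface `S` of genus `g` with one boundary component, based on
the boundary: the free group on `x_i = (i, false)` and `y_i = (i, true)`. -/
abbrev F (g : ℕ) : Type := FreeGroup (Fin g × Bool)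

/-- the class of the boundary curve, the product of the commutators `x_i y_i x_i⁻¹ y_i⁻¹` -/
def zeta (g : ℕ) : F g := ((List.finRange g).map fun i =>
  FreeGroup.of (i, false) * FreeGroup.of (i, true) * (FreeGroup.of (i, false))⁻¹ *
    (FreeGroup.of (i, true))⁻¹).prod

/-- the mapping class group `M(S)`: the automorphisms that fix `zeta` -/
def M (g : ℕ) : Subgroup (MulAut (F g)) where
  carrier := {φ | φ (zeta g) = zeta g}
  one_mem' := rfl
  mul_mem' := by
    intro a b ha hb
    show a (b (zeta g)) = zeta g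
    rw [show b (zeta g) = zeta g from hb]
    exact ha
  inv_mem' := by
    intro a ha
    show a⁻¹ (zeta g) = zeta g
    conv_lhs => rw [← show a (zeta g) = zeta g from ha]
    exact MulAut.inv_apply_self _ a _

/-- the homomorphism `y_i ↦ y_i v`, the other generators fixed -/
def tHom {g : ℕ} (i : Fin g) (v : F g) : F g →* F g :=
  FreeGroup.lift fun a => if a = (i, true) then FreeGroup.of a * v else FreeGroup.of a

lemma tHom_comp {g : ℕ} (i : Fin g) (v w : F g) (hw : tHom i v w = w) (h : v * w = 1) :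
    (tHom i v).comp (tHom i w) = MonoidHom.id _ := by
  refine FreeGroup.ext_hom _ _ fun a => ?_
  have e : ∀ (u : F g) (b : Fin g × Bool), tHom i u (FreeGroup.of b) =
      if b = (i, true) then FreeGroup.of b * u else FreeGroup.of b := fun u b => by
    unfold tHom
    rw [FreeGroup.lift_apply_of]
  rw [MonoidHom.comp_apply, MonoidHom.id_apply, e w]
  split_ifs with h1
  · rw [map_mul, hw, e v, if_pos h1, mul_assoc, h, mul_one]
  · rw [e v, if_neg h1]

lemma tHom_x {g : ℕ} (i : Fin g) (v : F g) :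
    tHom i v (FreeGroup.of (i, false)) = FreeGroup.of (i, false) := by
  unfold tHom
  rw [FreeGroup.lift_apply_of, if_neg]
  intro h
  exact absurd (congrArg Prod.snd h) (by simp)

/-- the positive Dehn twist about the curve `x_i`: `y_i ↦ y_i x_i`, the other generators fixed -/
def twist {g : ℕ} (i : Fin g) : MulAut (F g) :=
  MonoidHom.toMulEquiv (tHom i (FreeGroup.of (i, false))) (tHom i (FreeGroup.of (i, false))⁻¹)
    (tHom_comp i _ _ (tHom_x i _) (inv_mul_cancel _))
    (tHom_comp i _ _ (by rw [map_inv, tHom_x]) (mul_inv_cancel _))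

/-- the positive Dehn twists about the nonseparating simple closed curves -/
def IsTwist {g : ℕ} (τ : MulAut (F g)) : Prop := ∃ φ ∈ M g, ∃ i, τ = φ * twist i * φ⁻¹

/-- the monoid generated by these twists -/
def Pos (g : ℕ) : Submonoid (MulAut (F g)) := Submonoid.closure {τ | IsTwist τ}

/-- the positive twist about the boundary: conjugation by `zeta⁻¹` -/
def boundaryTwist (g : ℕ) : MulAut (F g) := MulAut.conj (zeta g)⁻¹

lemma mk_zw (g : ℕ) : FreeGroup.mk (zw g) = zeta g := by
  unfold zw zeta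
  generalize List.finRange g = is
  induction is with
  | nil => rfl
  | cons i is ih =>
    rw [List.flatMap_cons, mk_app, ih, List.map_cons, List.prod_cons]
    congr 1

lemma twist_mem {g : ℕ} (i : Fin g) : twist i ∈ M g := by
  show tHom i (FreeGroup.of (i, false)) (zeta g) = zeta g
  unfold zeta
  rw [map_list_prod, List.map_map]
  congr 1
  refine List.map_congr_left fun j _ => ?_
  have e : ∀ (u : F g) (b : Fin g × Bool), tHom i u (FreeGroup.of b) =
      if b = (i, true) then FreeGroup.of b * u else FreeGroup.of b := fun u b => by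
    unfold tHom
    rw [FreeGroup.lift_apply_of]
  simp only [Function.comp_apply, map_mul, map_inv, e]
  by_cases h : j = i
  · subst h
    simp
    group
  · simp [h]

lemma twist_slh {g : ℕ} (i : Fin g) :
    tHom i (FreeGroup.of (i, false)) = slh ((i, true), false) ((i, false), false) := by
  refine FreeGroup.ext_hom _ _ fun a => ?_
  rw [slh_of]
  unfold tHom
  rw [FreeGroup.lift_apply_of]
  rfl

lemma pres {g : ℕ} {φ : MulAut (F g)} (hφ : φ ∈ M g) : Pres (lt (4 * g + 1) (pos0 g)) φ := by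
  refine std_pres φ ?_
  rw [mk_zw]
  exact hφ

lemma twist_pos {g : ℕ} (i : Fin g) : PosEl (lt (4 * g + 1) (pos0 g)) (twist i) := by
  refine ⟨pres (twist_mem i), fun u => ?_⟩
  have e : twist i u = slh ((i, true), false) ((i, false), false) u := by
    rw [← twist_slh]
    rfl
  rw [e]
  refine slide_up (pos0_arr g) (slides _ _ ?_) ?_ ?_ u
  · intro h
    exact absurd (congrArg Prod.snd h) (by simp)
  · simp [pos0, iv]
  · simp [pos0, iv]

lemma pos_pos {g : ℕ} {τ : MulAut (F g)} (h : τ ∈ Pos g) :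
    PosEl (lt (4 * g + 1) (pos0 g)) τ := by
  unfold Pos at h
  refine Submonoid.closure_induction (motive := fun τ _ => PosEl (lt (4 * g + 1) (pos0 g)) τ)
    ?_ ?_ ?_ h
  · rintro τ ⟨φ, hφ, i, rfl⟩
    have h1 := twist_pos i
    exact ⟨pres ((M g).mul_mem ((M g).mul_mem hφ (twist_mem i)) ((M g).inv_mem hφ)),
      up_conj (pres hφ) h1.2⟩
  · exact ⟨pres_one, up_one⟩
  · intro a b _ _ ha hb
    exact ⟨pres_mul ha.1 hb.1, up_mul (fun _ _ _ => Pool.Agent.N513.PF.lt_trans) ha.2 hb.2⟩

/-- **Positive factorizations of the boundary twist over finitely many types of curve systems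
have bounded length.** -/
theorem result (g : ℕ) (k : ℤ) (C : Set (Set (MulAut (F g)))) (hC : C.Finite)
    (hB : ∀ B ∈ C, B.Finite ∧ ∀ τ ∈ B, τ ∈ Pos g ∧ τ ≠ 1) :
    ∃ N : ℕ, ∀ φ ∈ M g, ∀ B ∈ C, ∀ w : List (MulAut (F g)),
      (∀ τ ∈ w, ∃ σ ∈ B, τ = φ * σ * φ⁻¹) → w.prod = boundaryTwist g ^ k → w.length ≤ N := by
  obtain ⟨N, hN⟩ := uniform_bound (r := lt (4 * g + 1) (pos0 g)) (fun _ _ _ => Pool.Agent.N513.PF.lt_trans)
    (fun _ _ => Pool.Agent.N513.PF.lt_asymm) (M g) (fun φ hφ => pres hφ) (boundaryTwist g ^ k)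
    (fun φ hφ => by
      have h1 : φ * boundaryTwist g * φ⁻¹ = boundaryTwist g := by
        ext u
        show φ ((zeta g)⁻¹ * (φ⁻¹ u) * ((zeta g)⁻¹)⁻¹) = (zeta g)⁻¹ * u * ((zeta g)⁻¹)⁻¹
        have h2 : φ (zeta g) = zeta g := hφ
        rw [map_mul, map_mul, map_inv, map_inv, map_inv, h2, MulAut.apply_inv_self]
      have h3 : φ * boundaryTwist g ^ k * φ⁻¹ = (φ * boundaryTwist g * φ⁻¹) ^ k := by
        rw [conj_zpow]
      rw [h3, h1])
    C hC (fun B hB' => (hB B hB').1)
  refine ⟨N, fun φ hφ B hB' w hw hp => ?_⟩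
  refine hN {τ | ∃ σ ∈ B, τ = φ * σ * φ⁻¹} ?_ ⟨φ⁻¹, (M g).inv_mem hφ, B, hB', ?_⟩ w hw hp
  · rintro τ ⟨σ, hσ, rfl⟩
    obtain ⟨h1, h2⟩ := (hB B hB').2 σ hσ
    have h3 := pos_pos h1
    refine ⟨⟨pres_mul (pres_mul (pres hφ) h3.1) (pres ((M g).inv_mem hφ)),
      up_conj (pres hφ) h3.2⟩, fun h4 => h2 ?_⟩
    have h5 : σ = φ⁻¹ * (φ * σ * φ⁻¹) * φ := by group
    rw [h5, h4]
    group
  · rintro τ ⟨σ, hσ, rfl⟩
    have h5 : φ⁻¹ * (φ * σ * φ⁻¹) * φ⁻¹⁻¹ = σ := by group
    rw [h5]
    exact hσ

end Pool.Agent.Results.MP_294da1_gt.HigmanBound
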